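import Pool.Agent.H.MP_02a511_an.C

set_option autoImplicit false

open MeasureTheory Set Pool.Agent.H.MP_02a511_an
open scoped InnerProductSpace

namespace Pool.Agent.H.MP_8c5903_an

noncomputable abbrev L : Type := Lp ℝ 2 (volume : Measure (ℝ × ℝ))

noncomputable def fn (f : L) : ℝ × ℝ → ℝ := f

noncomputable def haar (j k : ℤ) (x : ℝ) : ℝ :=
  (√(2 ^ j))⁻¹ * ((I (j - 1) (2 * k + 1)).indicator 1 x - (I (j - 1) (2 * k)).indicator 1 x)

noncomputable def Th (j k : ℤ) : ℝ → ℝ := if k % 2 = 0 then -haar j (k + 1) else haar j (k - 1)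

def Shift (S : L → L) : Prop := ∀ (j k l m : ℤ) (p q : L),
  (fn p =ᵐ[volume] fun x => haar j k x.1 * haar l m x.2) →
  (fn q =ᵐ[volume] fun x => Th j k x.1 * Th l m x.2) → S p = q

def IsShift (S : L → L) : Prop := (∃ T : L →L[ℝ] L, ⇑T = S) ∧ Shift S

lemma hae (j k : ℤ) : h j k =ᵐ[volume] haar j k := by
  filter_upwards [Lp.coeFn_smul (√(2 ^ j))⁻¹ (ind (j - 1) (2 * k + 1) - ind (j - 1) (2 * k)),
    Lp.coeFn_sub (ind (j - 1) (2 * k + 1)) (ind (j - 1) (2 * k)), indicatorConstLp_coeFn (p := 2)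
    (hs := I_meas (j - 1) (2 * k + 1)) (hμs := I_fin _ _) (c := (1 : ℝ)),
    indicatorConstLp_coeFn (p := 2) (hs := I_meas (j - 1) (2 * k))
    (hμs := I_fin _ _) (c := (1 : ℝ))] with x h1 h2 h3 h4
  refine h1.trans ?_
  rw [Pi.smul_apply, h2, Pi.sub_apply, ind, ind, h3, h4]
  rfl

lemma tmem {f g : ℝ → ℝ} (hf : MemLp f 2) (hg : MemLp g 2) :
    MemLp (fun x : ℝ × ℝ => f x.1 * g x.2) 2 :=
  (memLp_two_iff_integrable_sq (hf.1.comp_fst.mul hg.1.comp_snd)).2 (by
    simpa only [Pi.mul_apply, mul_pow] using hf.integrable_sq.mul_prod hg.integrable_sq)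

lemma tin {f g f' g' : ℝ → ℝ} (hf : MemLp f 2) (hg : MemLp g 2) (hf' : MemLp f' 2)
    (hg' : MemLp g' 2) : ⟪(tmem hf hg).toLp, (tmem hf' hg').toLp⟫_ℝ =
      ⟪hf.toLp, hf'.toLp⟫_ℝ * ⟪hg.toLp, hg'.toLp⟫_ℝ := by
  have k : ∀ {α : Type} [MeasureSpace α] {u v : α → ℝ} (hu : MemLp u 2) (hv : MemLp v 2),
      ⟪hu.toLp, hv.toLp⟫_ℝ = ∫ x, v x * u x := fun hu hv => by
    rw [L2.inner_def]
    refine integral_congr_ae ?_
    filter_upwards [hu.coeFn_toLp, hv.coeFn_toLp] with x a b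
    simp [a, b]
  rw [k, k, k, ← integral_prod_mul]
  exact integral_congr_ae (.of_forall fun x => by ring)

lemma hm (j k : ℤ) : MemLp (haar j k) 2 := (memLp_congr_ae (hae j k)).1 (Lp.memLp _)

lemma hL (j k : ℤ) : (hm j k).toLp = h j k := Lp.ext ((hm j k).coeFn_toLp.trans (hae j k).symm)

lemma Tm (j k : ℤ) : MemLp (Th j k) 2 := by
  unfold Th; split_ifs; exacts [(hm _ _).neg, hm _ _]

lemma ex : ∃ S, IsShift S := by
  have o := orthonormal_iff_ite.1 ortho
  have o2 : ∀ p q : ℤ × ℤ, ⟪(Tm p.1 p.2).toLp, (Tm q.1 q.2).toLp⟫_ℝ = if p = q then 1 else 0 := by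
    have : ∀ j k, (Tm j k).toLp = (if k % 2 = 0 then -1 else 1 : ℝ) •
        h j (if k % 2 = 0 then k + 1 else k - 1) := fun j k => by
      split_ifs with a <;> simp only [Th, a, if_true, if_false, ← hL, neg_one_smul, one_smul]
      rfl
    rintro ⟨i, k⟩ ⟨j, l⟩
    have o' : ∀ i k j l, ⟪h i k, h j l⟫_ℝ = if i = j ∧ k = l then 1 else 0 := fun i k j l => by
      simpa using o (i, k) (j, l)
    by_cases a : k % 2 = 0 <;> by_cases b : l % 2 = 0 <;>
      simp only [this, real_inner_smul_left, real_inner_smul_right, Prod.mk.injEq, a, b, if_true,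
        if_false, o'] <;> split_ifs <;> first | omega | simp
  have hv : Orthonormal ℝ fun p : (ℤ × ℤ) × ℤ × ℤ =>
      (tmem (hm p.1.1 p.1.2) (hm p.2.1 p.2.2)).toLp := orthonormal_iff_ite.2 fun p q => by
    rw [tin (hm _ _) (hm _ _) (hm _ _) (hm _ _)]
    simp only [hL, o p.1, o p.2, Prod.ext_iff (x := p), ite_and, ite_mul, one_mul, zero_mul]
  have hw : Orthonormal ℝ fun p : (ℤ × ℤ) × ℤ × ℤ =>
      (tmem (Tm p.1.1 p.1.2) (Tm p.2.1 p.2.2)).toLp := orthonormal_iff_ite.2 fun p q => by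
    rw [tin (Tm _ _) (Tm _ _) (Tm _ _) (Tm _ _)]
    simp only [o2, Prod.ext_iff (x := p), ite_and, ite_mul, one_mul, zero_mul]
  refine ⟨_, ⟨hw.orthogonalFamily.linearIsometry.toContinuousLinearMap ∘L
    ContinuousLinearMap.adjoint hv.orthogonalFamily.linearIsometry.toContinuousLinearMap, rfl⟩,
      fun j k l m p q hp hq => ?_⟩
  have a := hv.orthogonalFamily.linearIsometry_apply_single (i := ((j, k), l, m)) (1 : ℝ)
  have b := hw.orthogonalFamily.linearIsometry_apply_single (i := ((j, k), l, m)) (1 : ℝ)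
  simp only [LinearIsometry.toSpanSingleton_apply, one_smul] at a b
  rw [Lp.ext (hp.trans (tmem (hm j k) (hm l m)).coeFn_toLp.symm),
    Lp.ext (hq.trans (tmem (Tm j k) (Tm l m)).coeFn_toLp.symm), ← a, ← b]
  refine congrArg hw.orthogonalFamily.linearIsometry (ext_inner_left ℝ fun v => ?_)
  exact (ContinuousLinearMap.adjoint_inner_right _ _ _).trans
    (hv.orthogonalFamily.linearIsometry.inner_map_map _ _)

noncomputable def χ (j k : ℤ) : ℝ → ℝ := (I j k).indicator 1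

lemma χm (j k : ℤ) : MemLp (χ j k) 2 := memLp_indicator_const 2 (I_meas j k) 1 (.inr (I_fin j k))

lemma spl (j k : ℤ) (x : ℝ) : χ (j + 1) k x = χ j (2 * k) x + χ j (2 * k + 1) x := by
  have : ⌊x / 2 ^ (j + 1)⌋ = ⌊x / 2 ^ j⌋ / 2 := by
    rw [zpow_add_one₀ two_ne_zero, ← div_div]
    exact_mod_cast Int.floor_div_natCast (x / 2 ^ j) 2
  classical
  simp only [χ, indicator_apply, mem_I, this, Pi.one_apply]
  split_ifs <;> first | omega | simp

def U (j k : ℤ) : Set (ℝ × ℝ) := {x | x.1 ∈ I j k ∧ ⌊x.1⌋ = ⌊x.2⌋}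

lemma Um (j k : ℤ) : MeasurableSet (U j k) :=
  (measurable_fst (I_meas j k)).inter (measurableSet_eq_fun (by fun_prop) (by fun_prop))

noncomputable def g (j k : ℤ) : L := (2 ^ j : ℝ)⁻¹ • (tmem (χm j k) (χm j k)).toLp

lemma gn (j k : ℤ) : ‖g j k‖ = 1 := by
  have := tin (χm j k) (χm j k) (χm j k) (χm j k)
  rw [show (χm j k).toLp = ind j k from rfl, ii, if_pos rfl, real_inner_self_eq_norm_mul_norm,
    mul_self_inj (norm_nonneg _) (by positivity)] at this
  rw [g, norm_smul, this, Real.norm_of_nonneg (by positivity), inv_mul_cancel₀ (by positivity)]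

lemma gs (j k : ℤ) : g j (2 * k) + g j (2 * k + 1) =
    g (j + 1) k + (tmem (hm (j + 1) k) (hm (j + 1) k)).toLp := by
  simp only [g, ← MemLp.toLp_const_smul, ← MemLp.toLp_add]
  refine MemLp.toLp_congr _ _ (.of_forall fun x => ?_)
  have : √(2 ^ (j + 1)) * √(2 ^ (j + 1)) = 2 ^ j * 2 := by
    rw [Real.mul_self_sqrt (by positivity), zpow_add_one₀ two_ne_zero]
  simp only [Pi.add_apply, Pi.smul_apply, smul_eq_mul, spl, haar, add_sub_cancel_right]
  rw [mul_mul_mul_comm, ← mul_inv, this, zpow_add_one₀ two_ne_zero]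
  unfold χ
  ring

lemma key {S : L →L[ℝ] L} (hS : Shift S) (n : ℕ) (k : ℤ) : ∃ F : L,
    F =ᵐ[volume] (U (n + 1) k).indicator 1 ∧ volume (U (n + 1) k) = 2 ^ (n + 1) ∧
      S (F - g n (2 * k) - g n (2 * k + 1)) = F - g n (2 * k) - g n (2 * k + 1) := by
  classical
  have sp : ∀ j k, (U (j + 1) k).indicator (1 : ℝ × ℝ → ℝ) =
      (U j (2 * k)).indicator 1 + (U j (2 * k + 1)).indicator 1 := fun j k => funext fun x => by
    have := spl j k x.1
    simp only [χ, U, indicator_apply, mem_ofPred_eq, Pi.add_apply, Pi.one_apply, ite_and] at this ⊢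
    by_cases a : ⌊x.1⌋ = ⌊x.2⌋ <;> simp [a, this]
  have vs : ∀ j k, volume (U (j + 1) k) = volume (U j (2 * k)) + volume (U j (2 * k + 1)) :=
    fun j k => by
    have d : Disjoint (U j (2 * k)) (U j (2 * k + 1)) := disjoint_left.2 fun x a b => by
      have := (mem_I.1 a.1).symm.trans (mem_I.1 b.1)
      omega
    rw [← measure_union d (Um _ _), indicator_one_inj (M₀ := ℝ)
      ((sp j k).trans (show _ + _ = _ from (indicator_union_of_disjoint d (1 : ℝ × ℝ → ℝ)).symm))]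
  have u0 : ∀ k, U 0 k = I 0 k ×ˢ I 0 k := fun k => by
    ext x
    simp only [U, mem_ofPred_eq, mem_prod, mem_I, zpow_zero, div_one]
    omega
  have g0 : ∀ k, g 0 k =ᵐ[volume] (U 0 k).indicator 1 := fun k => by
    rw [g, zpow_zero, inv_one, one_smul, u0]
    refine (MemLp.coeFn_toLp _).trans (.of_forall fun x => ?_)
    simp only [χ, indicator_apply, mem_prod, Pi.one_apply, ite_and, ite_mul, one_mul, zero_mul]
  induction n generalizing k with
  | zero =>
    refine ⟨g 0 (2 * k) + g 0 (2 * k + 1), ?_, ?_, by simp⟩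
    · rw [Nat.cast_zero, sp]
      exact (Lp.coeFn_add _ _).trans ((g0 _).add (g0 _))
    · have : ∀ k, volume (I 0 k) = 1 := fun k => by simp [I]
      rw [Nat.cast_zero, vs, u0, u0, Measure.volume_eq_prod, Measure.prod_prod, Measure.prod_prod]
      simp [this, one_add_one_eq_two]
  | succ n ih =>
    obtain ⟨F, a1, a2, a3⟩ := ih (2 * k)
    obtain ⟨G, b1, b2, b3⟩ := ih (2 * k + 1)
    refine ⟨F + G, ?_, ?_, ?_⟩
    · rw [Nat.cast_succ, sp]
      exact (Lp.coeFn_add _ _).trans (a1.add b1)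
    · rw [Nat.cast_succ, vs, a2, b2]
      ring
    have c1 := hS (n + 1) (2 * k) (n + 1) (2 * k) _ _ (tmem (hm _ _) (hm _ _)).coeFn_toLp
      ((tmem (hm (n + 1) (2 * k + 1)) (hm (n + 1) (2 * k + 1))).coeFn_toLp.trans
        (.of_forall fun x => by simp [Th]))
    have c2 := hS (n + 1) (2 * k + 1) (n + 1) (2 * k + 1) _ _ (tmem (hm _ _) (hm _ _)).coeFn_toLp
      ((tmem (hm (n + 1) (2 * k)) (hm (n + 1) (2 * k))).coeFn_toLp.trans
        (.of_forall fun x => by simp [Th]))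
    rw [Nat.cast_succ, eq_sub_of_add_eq (gs n (2 * k)).symm, eq_sub_of_add_eq (gs n (2 * k + 1)).symm]
    simp only [map_sub, map_add, c1, c2] at a3 b3 ⊢
    linear_combination (norm := module) a3 + b3

theorem main : (∃ S, IsShift S) ∧ ∀ S, IsShift S → ∀ η : ℝ, η < 1 → ∃ V : Set (ℝ × ℝ),
    MeasurableSet V ∧ 0 < volume V ∧ volume V < ⊤ ∧ ∀ f : L, fn f =ᵐ[volume] V.indicator 1 →
      η * volume.real V < ∫ x in V, fn (S f) x ^ 2 := by
  refine ⟨ex, ?_⟩
  rintro _ ⟨⟨S, rfl⟩, hS⟩ η hη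
  obtain ⟨n, hn⟩ := pow_unbounded_of_one_lt ((4 * (‖S‖ + 1) / (1 - η)) ^ 2) (one_lt_two (α := ℝ))
  obtain ⟨F, a1, a2, a3⟩ := key hS n 0
  refine ⟨_, Um (n + 1) 0, by simp [a2, pos_iff_ne_zero], by simp [a2, lt_top_iff_ne_top],
    fun f hf => ?_⟩
  obtain rfl : f = F := Lp.ext (hf.trans a1.symm)
  have fin : IsFiniteMeasure (volume.restrict (U (n + 1) 0)) := isFiniteMeasure_restrict.2 (by simp [a2])
  have b1 : ∀ u : L, ⟪f, u⟫_ℝ = ∫ x in U (n + 1) 0, u x := fun u => by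
    rw [L2.inner_def, ← integral_indicator (Um _ _)]
    refine integral_congr_ae (a1.mono fun x hx => ?_)
    by_cases a : x ∈ U (n + 1) 0 <;> simp [hx, a]
  have b2 : ‖f‖ ^ 2 = volume.real (U (n + 1) 0) := by
    rw [← real_inner_self_eq_norm_sq, b1, setIntegral_congr_ae (Um _ _) (g := fun _ => 1)
      (a1.mono fun x hx a => by simp [hx, a])]
    simp
  have b3 : ‖S f - f‖ ≤ 2 * (‖S‖ + 1) := by
    have c : ‖g n (2 * 0) + g n (2 * 0 + 1)‖ ≤ 2 := (norm_add_le _ _).trans (by norm_num [gn])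
    rw [sub_sub, map_sub, sub_eq_sub_iff_sub_eq_sub] at a3
    rw [a3]
    nlinarith [norm_sub_le (S (g n (2 * 0) + g n (2 * 0 + 1))) (g n (2 * 0) + g n (2 * 0 + 1)),
      S.le_opNorm (g n (2 * 0) + g n (2 * 0 + 1)), norm_nonneg S]
  have b4 : 4 * (‖S‖ + 1) < ‖f‖ * (1 - η) := by
    rw [← div_lt_iff₀ (by linarith)]
    refine lt_of_pow_lt_pow_left₀ 2 (norm_nonneg _) (hn.trans_le ?_)
    simp [b2, Measure.real, a2, pow_succ]
  have i1 := ((Lp.memLp (S f)).restrict (U (n + 1) 0)).integrable one_le_two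
  have b5 := integral_mono ((i1.const_mul 2).sub (integrable_const 1))
    ((Lp.memLp (S f)).restrict (U (n + 1) 0)).integrable_sq fun x => by
      simp only [Pi.sub_apply]
      nlinarith [sq_nonneg (S f x - 1)]
  simp only [Pi.sub_apply] at b5
  rw [integral_sub (i1.const_mul 2) (integrable_const 1), integral_const_mul, ← b1,
    setIntegral_const, ← b2] at b5
  have b6 := abs_le.1 (abs_real_inner_le_norm f (S f - f))
  rw [inner_sub_right, real_inner_self_eq_norm_sq] at b6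
  have b7 : 0 < ‖f‖ := by nlinarith [norm_nonneg S, norm_nonneg f]
  rw [← b2]
  refine lt_of_lt_of_le ?_ b5
  rw [smul_eq_mul]
  nlinarith [mul_le_mul_of_nonneg_left b3 b7.le, mul_lt_mul_of_pos_left b4 b7]

end Pool.Agent.H.MP_8c5903_an
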